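import Pool.Agent.H15.G.R_seed8.TH760.EN.Defs
import Pool.Agent.H15.G.R_seed8.TH698.NagT3

/-! Three points of multiplicity `m` on the triangle `4 i + 3 y < 6 m`. -/

set_option autoImplicit false

namespace Pool.Agent.TH406.EN

open Finset Pool.Agent.TH176.Nag Pool.Agent.TH603.Sur Pool.Agent.TH760.EN

/-- the left part of the flattened triangle -/
def LL (m : ℕ) : Set (ℤ × ℤ) := {p | 0 ≤ p.2 ∧ p.2 ≤ p.1 ∧ p.1 < (m : ℤ)}

/-- the right part of the flattened triangle -/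
def RR (m : ℕ) : Set (ℤ × ℤ) := {p | (m : ℤ) ≤ p.1 ∧ 0 ≤ p.2 ∧ p.2 ≤ p.1 ∧
  p.2 + 3 * p.1 < 6 * (m : ℤ)}

theorem card_le_of_Ico {B : Finset ℤ} {a b : ℤ} (h : ∀ x ∈ B, a ≤ x ∧ x < b) (k : ℕ)
    (hk : k < B.card) : a + k < b := by
  have h1 : B ⊆ Finset.Ico a b := fun x hx => Finset.mem_Ico.2 (h x hx)
  have h2 := card_le_card h1
  rw [Int.card_Ico] at h2
  omega

/-- a single point and rows of at most `v - y` exponents -/
theorem single {S : Set (ℤ × ℤ)} {v : ℕ}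
    (hS : ∀ (y : ℤ) (B : Finset ℤ), (∀ b ∈ B, ((b, y) : ℤ × ℤ) ∈ S) → ∀ k : ℕ, k < B.card →
      0 ≤ y ∧ y + k < v) : Emp (fun _ : Unit => v) S := by
  have h1 : Emp (fun _ : Unit => v) {m : ℤ × ℤ | (m.2, m.1) ∈ S} := by
    refine Emp_flat0 (S' := Rws (fun _ : Unit => v) 0) ?_ (Emp_rows _ 0)
    intro a B hB k hk
    obtain ⟨h2, h3⟩ := hS a B (fun b hb => hB b hb) k hk
    refine ⟨by simp, h2, ?_⟩
    simp only [Finset.univ_unique, Finset.sum_const, Finset.card_singleton, smul_eq_mul, one_mul,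
      Int.toNat_natCast, zero_add]
    omega
  refine h1.comap 0 1 1 0 0 0 (by norm_num) ?_
  rintro ⟨a, b⟩ h
  simpa using h

theorem empL (m : ℕ) : Emp (fun _ : Unit => m) (LL m) := by
  refine single fun y B hB k hk => ?_
  obtain ⟨b0, hb0⟩ := card_pos.1 (by omega : 0 < B.card)
  have h0 := (hB b0 hb0).1
  have h1 := card_le_of_Ico (a := y) (b := (m : ℤ)) (fun x hx => ⟨(hB x hx).2.1, (hB x hx).2.2⟩) k hk
  exact ⟨h0, h1⟩

theorem empR (m : ℕ) : Emp (fun _ : Fin 2 => m) (RR m) := by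
  -- the rows, sheared
  have h1 : Emp (fun _ : Fin 2 => m) {p : ℤ × ℤ | 0 ≤ p.2 ∧ p.2 + (m : ℤ) ≤ p.1 ∧
      p.2 + p.1 < 3 * (m : ℤ)} := by
    refine (Emp_rows (fun _ : Fin 2 => m) (m : ℤ)).comap 1 (-1) 0 1 0 0 (by norm_num) ?_
    rintro ⟨s, k⟩ ⟨h1, h2, h3⟩
    simp only at h1 h2 h3
    refine ⟨?_, ?_, ?_⟩
    · simp only; omega
    · simp only; omega
    · simp only [Finset.sum_const, Finset.card_univ, Fintype.card_fin, smul_eq_mul]
      omega
  -- flattened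
  have h2 : Emp (fun _ : Fin 2 => m) {p : ℤ × ℤ | (m : ℤ) + p.2 ≤ p.1 ∧ 0 ≤ p.2 ∧
      2 * p.2 ≤ p.1 ∧ 3 * p.1 < 6 * (m : ℤ) + 2 * p.2} := by
    refine Emp_flat0 ?_ h1
    intro a B hB k hk
    have h3 : ∀ x ∈ B, 0 ≤ x ∧ x < a - m + 1 := fun x hx => by
      obtain ⟨h4, h5, h6, h7⟩ := hB x hx
      simp only at h4 h5 h6 h7
      omega
    have h4 : ∀ x ∈ B, (3 * a - 6 * (m : ℤ)) / 2 + 1 ≤ x ∧ x < a / 2 + 1 := fun x hx => by
      obtain ⟨h4, h5, h6, h7⟩ := hB x hx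
      simp only at h4 h5 h6 h7
      omega
    have h5 := card_le_of_Ico h3 k hk
    have h6 := card_le_of_Ico h4 k hk
    refine ⟨?_, ?_, ?_⟩
    · simp only; omega
    · simp only; omega
    · simp only; omega
  refine h2.comap 1 1 0 1 0 0 (by norm_num) ?_
  rintro ⟨t, k⟩ ⟨h3, h4, h5, h6⟩
  simp only at h3 h4 h5 h6
  refine ⟨?_, ?_, ?_, ?_⟩
  · simp only; omega
  · simp only; omega
  · simp only; omega
  · simp only; omega

theorem empF (m : ℕ) : Emp (fun _ : Fin 3 => m) (LL m ∪ RR m) := by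
  have h1 := Pool.Agent.TH698.NagT3.Emp_cut (S := LL m) (T := RR m) (a := 1) (b := 0)
    (by
      refine Set.Finite.subset (Set.finite_Icc ((0, 0) : ℤ × ℤ) ((m : ℤ), (m : ℤ))) ?_
      rintro ⟨a, b⟩ ⟨h1, h2, h3⟩
      simp only at h1 h2 h3
      rw [Set.mem_Icc, Prod.mk_le_mk, Prod.mk_le_mk]
      omega)
    (by
      refine Set.Finite.subset (Set.finite_Icc ((0, 0) : ℤ × ℤ) (6 * (m : ℤ), 6 * (m : ℤ))) ?_
      rintro ⟨a, b⟩ ⟨h1, h2, h3, h4⟩
      simp only at h1 h2 h3 h4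
      rw [Set.mem_Icc, Prod.mk_le_mk, Prod.mk_le_mk]
      omega)
    (by
      rintro ⟨a, b⟩ ⟨h1, h2, h3⟩
      simp only at h1 h2 h3 ⊢
      omega)
    (by
      rintro ⟨a, b⟩ ⟨h1, h2, h3, h4⟩
      simp only at h1 h2 h3 h4 ⊢
      omega)
    (by
      rintro ⟨a, b⟩ ⟨h1, h2, h3⟩ ⟨a', b'⟩ ⟨h1', h2', h3', h4'⟩
      simp only at h1 h2 h3 h1' h2' h3' h4' ⊢
      omega)
    (empL m) (empR m)
  refine Emp_emb (Sum.elim (fun _ => (0 : Fin 3)) (fun i : Fin 2 => i.succ)) ?_ ?_ h1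
  · rintro (i | i) (j | j) h
    · rfl
    · exact absurd h (Fin.succ_ne_zero j).symm
    · exact absurd h (Fin.succ_ne_zero i)
    · exact congrArg Sum.inr (Fin.succ_injective _ h)
  · rintro (i | i) <;> exact le_rfl

theorem he3 : Pool.Agent.TH760.EN.HE 3 := by
  intro m
  have h1 : Emp (fun _ : Fin 3 => m) {p : ℤ × ℤ | 0 ≤ p.2 ∧ p.2 ≤ p.1 ∧
      4 * p.1 < 6 * (m : ℤ) + p.2} := by
    refine Emp_flat0 ?_ (empF m)
    intro a B hB k hk
    have h3 : ∀ x ∈ B, 0 ≤ x ∧ x < a + 1 := fun x hx => by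
      obtain ⟨h4, h5, h6⟩ := hB x hx
      simp only at h4 h5 h6
      omega
    have h4 : ∀ x ∈ B, 4 * a - 6 * (m : ℤ) + 1 ≤ x ∧ x < a + 1 := fun x hx => by
      obtain ⟨h4, h5, h6⟩ := hB x hx
      simp only at h4 h5 h6
      omega
    have h5 := card_le_of_Ico h3 k hk
    have h6 := card_le_of_Ico h4 k hk
    rcases lt_or_ge a (m : ℤ) with h7 | h7
    · left
      refine ⟨?_, ?_, ?_⟩
      · simp only; omega
      · simp only; omega
      · simp only; omega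
    · right
      refine ⟨?_, ?_, ?_, ?_⟩
      · simp only; omega
      · simp only; omega
      · simp only; omega
      · simp only; omega
  refine h1.comap 1 1 0 1 0 0 (by norm_num) ?_
  rintro ⟨i, y⟩ ⟨h3, h4, h5⟩
  simp only at h3 h4 h5
  push_cast at h5
  refine ⟨?_, ?_, ?_⟩
  · simp only; omega
  · simp only; omega
  · simp only; omega

theorem sum_z (m : ℕ) : ∑ z ∈ range (2 * m), (3 * (z + 2)) / 4 = 3 * (m + 1).choose 2 := by
  induction m with
  | zero => simp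
  | succ m ih =>
    have h1 : (m + 1 + 1).choose 2 = (m + 1) + (m + 1).choose 2 := by
      rw [Nat.choose_succ_succ' (m + 1) 1, Nat.choose_one_right]
    rw [show 2 * (m + 1) = 2 * m + 1 + 1 by ring, sum_range_succ, sum_range_succ, ih, h1]
    omega

theorem hs3 : Pool.Agent.TH760.EN.HS 3 := by
  classical
  intro m
  set T : Finset (ℤ × ℤ) := ((range (2 * m)).sigma fun z => range ((3 * (z + 2)) / 4)).image
    (fun q : (_ : ℕ) × ℕ => (((q.2 : ℕ) : ℤ), 2 * (m : ℤ) - 1 - ((q.1 : ℕ) : ℤ))) with hT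
  refine ⟨T, ?_, ?_, ?_⟩
  · intro p hp
    rw [hT, coe_image] at hp
    obtain ⟨⟨z, i⟩, hq, rfl⟩ := hp
    rw [Finset.mem_coe, mem_sigma, mem_range, mem_range] at hq
    obtain ⟨h1, h2⟩ := hq
    simp only at h1 h2
    refine ⟨?_, ?_, ?_, ?_⟩
    · simp only; omega
    · simp only; omega
    · simp only; omega
    · simp only; push_cast; omega
  · rw [hT, card_image_of_injective, card_sigma]
    · simp only [card_range]
      rw [sum_z]
      simp [Pool.Agent.TH603.Sur.cond]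
    · rintro ⟨z, i⟩ ⟨z', i'⟩ h
      simp only [Prod.mk.injEq] at h
      obtain ⟨h1, h2⟩ := h
      have h3 : i = i' := by exact_mod_cast h1
      have h4 : z = z' := by omega
      subst h3
      subst h4
      rfl
  · refine (he3 m).mono ?_
    intro p hp
    rw [hT, coe_image] at hp
    obtain ⟨⟨z, i⟩, hq, rfl⟩ := hp
    rw [Finset.mem_coe, mem_sigma, mem_range, mem_range] at hq
    obtain ⟨h1, h2⟩ := hq
    simp only at h1 h2
    refine ⟨?_, ?_, ?_⟩
    · simp only; omega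
    · simp only; omega
    · simp only; push_cast; omega

end Pool.Agent.TH406.EN
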